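import Pool.Agent.N848.OL.Stm

/-!
OL/NMD: the condition `NoMu` goes down in extensions of number fields.
-/

set_option autoImplicit false

namespace Pool.Agent.N655.OL

open NumberField IsDedekindDomain Module Pool.Agent.H637R2.Leo Pool.Agent.Y18.LC Pool.Agent.N848.LT
  Pool.Agent.N848.OL

/-- a prime above a given one -/
theorem exists_ab (F K : Type) [Field F] [NumberField F] [Field K] [NumberField K] [Algebra F K]
    (v : HeightOneSpectrum (𝓞 F)) : ∃ w : HeightOneSpectrum (𝓞 K), Ab w v := by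
  have hv := v.isPrime
  have hinj : Function.Injective (algebraMap (𝓞 F) (𝓞 K)) :=
    FaithfulSMul.algebraMap_injective (𝓞 F) (𝓞 K)
  obtain ⟨Q, -, hQ, hQv⟩ := Ideal.exists_ideal_over_prime_of_isIntegral v.asIdeal (⊥ : Ideal (𝓞 K))
    (by
      have h0 : Ideal.comap (algebraMap (𝓞 F) (𝓞 K)) (⊥ : Ideal (𝓞 K)) = ⊥ :=
        (RingHom.injective_iff_ker_eq_bot _).1 hinj
      rw [h0]
      exact bot_le)
  have hne : Q ≠ ⊥ := by
    intro h
    have h0 : Ideal.comap (algebraMap (𝓞 F) (𝓞 K)) (⊥ : Ideal (𝓞 K)) = ⊥ :=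
      (RingHom.injective_iff_ker_eq_bot _).1 hinj
    rw [h, h0] at hQv
    exact v.ne_bot hQv.symm
  exact ⟨⟨Q, hQ, hne⟩, hQv⟩

theorem t_NMD (_hUP : Pool.Agent.N848.LT.S_UP) : S_NMD := by
  intro p _ F K _ _ _ _ _ h v hv x hx
  obtain ⟨w, hw⟩ := exists_ab F K v
  have hlo : w.asIdeal.LiesOver v.asIdeal := by
    rw [Ideal.liesOver_iff]
    exact hw.symm
  have hpw : (p : 𝓞 K) ∈ w.asIdeal := by
    rw [← hw, Ideal.mem_comap, map_natCast] at hv
    exact hv
  refine h w hpw (algebraMap F K x) ?_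
  have h1 := HeightOneSpectrum.valuation_liesOver K v w x
  have h2 := HeightOneSpectrum.valuation_liesOver K v w (p : F)
  have h3 : algebraMap F K (p : F) = (p : K) := map_natCast _ _
  rw [h3] at h2
  rw [← h1, ← h2, ← hx, ← pow_mul, ← pow_mul, mul_comm]

end Pool.Agent.N655.OL
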